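import Pool.Agent.Helper30_Sph.Stmts

/-!
# EMB: no square-summable top cycles, relative version
-/

namespace Pool.Agent.Sph.H26

open Pool.Agent.Helper30L2 Pool.Agent.Davis Pool.Agent.Sph

noncomputable section

section ext

variable {V₁ V : Type} [DecidableEq V₁] [DecidableEq V] (κ : V₁ ↪ V)

open Classical in
/-- Extension of a chain along an injection. -/
def ex (z : Finset V₁ → MvPolynomial V₁ (ZMod 2)) (T : Finset V) : MvPolynomial V (ZMod 2) :=
  if h : ∃ T₁ : Finset V₁, T₁.map κ = T then MvPolynomial.rename κ (z h.choose) else 0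

variable {κ}

theorem ex_map (z : Finset V₁ → MvPolynomial V₁ (ZMod 2)) (T : Finset V₁) :
    ex κ z (T.map κ) = MvPolynomial.rename κ (z T) := by
  have h : ∃ T₁ : Finset V₁, T₁.map κ = T.map κ := ⟨T, rfl⟩
  unfold ex
  rw [dif_pos h]
  congr 2
  exact Finset.map_injective κ h.choose_spec

theorem ex_not (z : Finset V₁ → MvPolynomial V₁ (ZMod 2)) {T : Finset V}
    (h : ¬ ∃ T₁ : Finset V₁, T₁.map κ = T) : ex κ z T = 0 := by
  unfold ex
  rw [dif_neg h]

variable [Fintype V₁] [Fintype V]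

theorem ex_sum (z : Finset V₁ → MvPolynomial V₁ (ZMod 2)) (w₁ : V₁ → MvPolynomial V₁ (ZMod 2))
    (w : V → MvPolynomial V (ZMod 2)) (hw : ∀ v, w (κ v) = MvPolynomial.rename κ (w₁ v))
    (h0 : ∀ τ, ∑ v ∈ Finset.univ \ τ, w₁ v * z (insert v τ) = 0) (τ : Finset V) :
    ∑ v ∈ Finset.univ \ τ, w v * ex κ z (insert v τ) = 0 := by
  by_cases hτ : ∃ T₁ : Finset V₁, T₁.map κ = τ
  · obtain ⟨τ, rfl⟩ := hτ
    have h1 : ∑ v ∈ (Finset.univ \ τ).map κ, w v * ex κ z (insert v (τ.map κ)) =
        ∑ v ∈ Finset.univ \ τ.map κ, w v * ex κ z (insert v (τ.map κ)) := by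
      apply Finset.sum_subset
      · intro v hv
        rw [Finset.mem_map] at hv
        obtain ⟨v, hv, rfl⟩ := hv
        rw [Finset.mem_sdiff] at hv ⊢
        refine ⟨Finset.mem_univ _, ?_⟩
        rw [Finset.mem_map' κ]
        exact hv.2
      · intro v hv hv'
        rw [ex_not, mul_zero]
        rintro ⟨T₁, hT₁⟩
        have h2 : v ∈ T₁.map κ := by rw [hT₁]; exact Finset.mem_insert_self _ _
        rw [Finset.mem_map] at h2
        obtain ⟨v, _, rfl⟩ := h2
        apply hv'
        rw [Finset.mem_map' κ, Finset.mem_sdiff]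
        rw [Finset.mem_sdiff, Finset.mem_map' κ] at hv
        exact ⟨Finset.mem_univ _, hv.2⟩
    rw [← h1, Finset.sum_map]
    have h2 : ∀ v ∈ Finset.univ \ τ, w (κ v) * ex κ z (insert (κ v) (τ.map κ)) =
        MvPolynomial.rename κ (w₁ v * z (insert v τ)) := by
      intro v _
      rw [hw, ← Finset.map_insert, ex_map, map_mul]
    rw [Finset.sum_congr rfl h2, ← map_sum, h0, map_zero]
  · apply Finset.sum_eq_zero
    intro v _
    rw [ex_not, mul_zero]
    rintro ⟨T₁, hT₁⟩
    apply hτ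
    have h2 : τ ⊆ T₁.map κ := by rw [hT₁]; exact Finset.subset_insert _ _
    rw [Finset.subset_map_iff] at h2
    obtain ⟨T₂, _, h3⟩ := h2
    exact ⟨T₂, h3.symm⟩

theorem twInj_sub {Γ₁ : SimpleGraph V₁} {Γ : SimpleGraph V} {k : ℕ}
    (hΓ : ∀ v w, Γ₁.Adj v w ↔ Γ.Adj (κ v) (κ w)) (h : TwInj Γ (Finset.univ.map κ) k) :
    TwInj Γ₁ Finset.univ k := by
  intro z hz h1 h2
  have h3 : ex κ z = 0 := by
    apply h
    · intro T hT
      have h4 : ∃ T₁ : Finset V₁, T₁.map κ = T := by
        by_contra h4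
        exact hT (ex_not z h4)
      obtain ⟨T, rfl⟩ := h4
      rw [ex_map] at hT
      have h5 : z T ≠ 0 := by
        intro h6
        rw [h6, map_zero] at hT
        exact hT rfl
      obtain ⟨_, h6, h7⟩ := hz T h5
      refine ⟨Finset.map_subset_map.mpr (Finset.subset_univ _), ?_, ?_⟩
      · intro v hv w hw hvw
        rw [Finset.mem_coe, Finset.mem_map] at hv hw
        obtain ⟨v, hv, rfl⟩ := hv
        obtain ⟨w, hw, rfl⟩ := hw
        rw [← hΓ]
        exact h6 hv hw (fun e => hvw (by rw [e]))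
      · rw [Finset.card_map, h7]
    · intro τ
      have := ex_sum (κ := κ) z (fun _ => 1) (fun _ => 1) (fun v => by simp)
        (fun τ => by simpa using h1 τ) τ
      simpa using this
    · intro τ
      exact ex_sum (κ := κ) z (fun v => MvPolynomial.X v) (fun v => MvPolynomial.X v)
        (fun v => by rw [MvPolynomial.rename_X]) h2 τ
  funext T
  have h4 := congrFun h3 (T.map κ)
  rw [ex_map] at h4
  have h5 : MvPolynomial.rename κ (z T) = MvPolynomial.rename κ 0 := by
    rw [h4, map_zero]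
    rfl
  exact MvPolynomial.rename_injective κ κ.injective h5

end ext

theorem emb (h : TopStmt) : EmbStmt := by
  intro V _ _ Γ S k c hc hT ε
  set κ : {v // v ∈ S} ↪ V := Function.Embedding.subtype _ with hκ
  have e : (Finset.univ : Finset {v // v ∈ S}).map κ = S := by
    ext v
    simp [hκ]
  have h1 : TwInj (Γ.comap κ) Finset.univ k := by
    apply twInj_sub (κ := κ) (Γ := Γ) (fun v w => Iff.rfl)
    rw [e]
    exact hT
  have h2 := h {v // v ∈ S} (Γ.comap κ) k (fun v => c (κ v))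
    (fun v w hvw => hc _ v.2 _ w.2 hvw) h1
  have h3 := bb_embed κ ε (Γ.comap κ) Γ Finset.univ (fun v _ w _ => Iff.rfl) ((k : ℤ) + 1)
  rw [e] at h3
  rw [h3]
  have h4 := (vanishes_iff (ε.pullE κ)).mp h2
  push_cast at h4
  exact h4

end

end Pool.Agent.Sph.H26
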