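import Pool.Agent.Helper30_Sph.Stmts

/-!
# TOP: no square-summable top cycles
-/

namespace Pool.Agent.Sph.H26

open Pool.Agent.Helper30L2 Pool.Agent.Davis Pool.Agent.Sph

noncomputable section

section ev

variable {G R : Type*} [CommRing R]

/-- Evaluation of an element of the integral group ring on a function. -/
def ev (f : G → R) (a : MonoidAlgebra ℤ G) : R := a.coeff.sum (fun h c => (c : R) * f h)

theorem ev_zero (f : G → R) : ev f 0 = 0 := by simp [ev]

theorem ev_add (f : G → R) (a b : MonoidAlgebra ℤ G) : ev f (a + b) = ev f a + ev f b := by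
  unfold ev
  rw [MonoidAlgebra.coeff_add, Finsupp.sum_add_index']
  · intro h; simp
  · intro h c d; push_cast; ring

theorem ev_single (f : G → R) (g : G) (c : ℤ) :
    ev f (MonoidAlgebra.single g c) = c * f g := by
  unfold ev
  rw [MonoidAlgebra.coeff_single, Finsupp.sum_single_index]
  simp

theorem ev_sum {ι : Type*} (f : G → R) (s : Finset ι) (a : ι → MonoidAlgebra ℤ G) :
    ev f (∑ i ∈ s, a i) = ∑ i ∈ s, ev f (a i) := by
  classical
  induction s using Finset.induction_on with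
  | empty => simp [ev_zero]
  | insert i s hi ih => rw [Finset.sum_insert hi, Finset.sum_insert hi, ev_add, ih]

end ev

section top

open Classical

variable {V : Type} [Fintype V] (Γ : SimpleGraph V) (k : ℕ) (r : V → ℕ)

/-- The top cells. -/
abbrev Jt : Type := {T : Finset V // Γ.IsClique (T : Set V) ∧ T.card = k + 1}

/-- The matrix of the equations of top cycles. -/
def mat : ((Jt Γ k × V) ⊕ Finset V) → Jt Γ k → MonoidAlgebra ℤ (Racg Γ)
  | Sum.inl (T, v), T' => if v ∈ T.1 ∧ T' = T then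
      MonoidAlgebra.single 1 1 + MonoidAlgebra.single (gen Γ v) 1 else 0
  | Sum.inr τ, T' => ∑ v ∈ Finset.univ \ τ, if insert v τ = T'.1 then
      MonoidAlgebra.single 1 ((-1) ^ (τ.filter fun w => r w < r v).card) else 0

variable {Γ k}

theorem mat_inl (T T' : Jt Γ k) (v : V) : mat Γ k r (Sum.inl (T, v)) T' =
    if v ∈ T.1 ∧ T' = T then
      MonoidAlgebra.single 1 1 + MonoidAlgebra.single (gen Γ v) 1 else 0 := rfl

theorem mat_inr (τ : Finset V) (T' : Jt Γ k) : mat Γ k r (Sum.inr τ) T' =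
    ∑ v ∈ Finset.univ \ τ, if insert v τ = T'.1 then
      MonoidAlgebra.single 1 ((-1) ^ (τ.filter fun w => r w < r v).card) else 0 := rfl

theorem row_inl {R : Type*} [CommRing R] (T : Jt Γ k) (v : V) (hv : v ∈ T.1)
    (f : Jt Γ k → Racg Γ → R) :
    ∑ j, ev (f j) (mat Γ k r (Sum.inl (T, v)) j) = f T 1 + f T (gen Γ v) := by
  rw [Finset.sum_eq_single T]
  · rw [mat_inl, if_pos ⟨hv, rfl⟩, ev_add, ev_single, ev_single]
    simp
  · intro T' _ hT'
    rw [mat_inl, if_neg (fun h => hT' h.2), ev_zero]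
  · intro h
    exact absurd (Finset.mem_univ _) h

theorem row_inl_not {R : Type*} [CommRing R] (T : Jt Γ k) (v : V) (hv : v ∉ T.1)
    (f : Jt Γ k → Racg Γ → R) :
    ∑ j, ev (f j) (mat Γ k r (Sum.inl (T, v)) j) = 0 := by
  apply Finset.sum_eq_zero
  intro T' _
  rw [mat_inl, if_neg (fun h => hv h.1), ev_zero]

theorem row_inr {R : Type*} [CommRing R] (τ : Finset V) (f : Jt Γ k → Racg Γ → R) :
    ∑ j, ev (f j) (mat Γ k r (Sum.inr τ) j) =
      ∑ v ∈ Finset.univ \ τ, if h : Γ.IsClique ((insert v τ : Finset V) : Set V) ∧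
        (insert v τ).card = k + 1 then
        (-1) ^ (τ.filter fun w => r w < r v).card * f ⟨insert v τ, h⟩ 1 else 0 := by
  have e : ∀ j : Jt Γ k, ev (f j) (mat Γ k r (Sum.inr τ) j) =
      ∑ v ∈ Finset.univ \ τ, if insert v τ = j.1 then
        (-1) ^ (τ.filter fun w => r w < r v).card * f j 1 else 0 := by
    intro j
    rw [mat_inr, ev_sum]
    refine Finset.sum_congr rfl fun v _ => ?_
    split_ifs with h
    · rw [ev_single]; push_cast; rfl
    · rw [ev_zero]
  simp_rw [e]
  rw [Finset.sum_comm]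
  refine Finset.sum_congr rfl fun v _ => ?_
  split_ifs with h
  · rw [Finset.sum_eq_single (⟨insert v τ, h⟩ : Jt Γ k)]
    · rw [if_pos rfl]
    · intro j _ hj
      rw [if_neg]
      intro hh
      exact hj (Subtype.ext hh.symm)
    · intro h
      exact absurd (Finset.mem_univ _) h
  · apply Finset.sum_eq_zero
    intro j _
    rw [if_neg]
    intro hh
    apply h
    rw [hh]
    exact j.2

/-- A top cycle of the Davis complex satisfies the equations. -/
theorem cyc_eq {x : L2 Γ} (hx : IsChain Γ (k + 1) x) (hb : IsBoundary Γ r x 0) (g : Racg Γ)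
    (K : (Jt Γ k × V) ⊕ Finset V) :
    ∑ j, ev (fun h => (cmp (Function.Embedding.subtype _) x : Hil (Racg Γ × Jt Γ k)) (g * h, j))
      (mat Γ k r K j) = 0 := by
  obtain ⟨T, v⟩ | τ := K
  · by_cases hv : v ∈ T.1
    · rw [row_inl r T v hv (fun j h =>
        (cmp (Function.Embedding.subtype _) x : Hil (Racg Γ × Jt Γ k)) (g * h, j))]
      simp only [cmp_apply, mul_one]
      have := hx.orientation g T.1 v hv
      change x (g, T.1) + x (g * gen Γ v, T.1) = 0
      rw [this]
      ring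
    · exact row_inl_not r T v hv _
  · rw [row_inr r τ (fun j h =>
      (cmp (Function.Embedding.subtype _) x : Hil (Racg Γ × Jt Γ k)) (g * h, j))]
    have h1 := hb g τ
    have h2 : (0 : L2 Γ) (g, τ) = 0 := rfl
    rw [h2] at h1
    refine Eq.trans ?_ h1.symm
    refine Finset.sum_congr rfl fun v _ => ?_
    split_ifs with h
    · simp only [cmp_apply, mul_one]
      rfl
    · have h4 : x (g, insert v τ) = 0 := by
        by_contra h3
        exact h (hx.support g _ h3)
      rw [h4, mul_zero]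

/-- The comparison map of the kernels. -/
def toZQ {Q : Type} [Group Q] (π : Racg Γ →* Q) :
    kerQ 2 (mat Γ k r) π →ₗ[ZMod 2] ZQ Γ k (fun v => π (gen Γ v)) where
  toFun y := ⟨fun q T => if h : Γ.IsClique (T : Set V) ∧ T.card = k + 1 then
      y.1 (q, ⟨T, h⟩) else 0, by
    have hy := y.2
    have key : ∀ q K, ∑ j, ev (fun h => y.1 (q * π h, j)) (mat Γ k r K j) = 0 := hy
    refine ⟨fun q T h => dif_neg h, ?_, ?_⟩
    · intro q T v hv
      change (if h : Γ.IsClique (T : Set V) ∧ T.card = k + 1 then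
        y.1 (q * π (gen Γ v), ⟨T, h⟩) else 0) = (if h : Γ.IsClique (T : Set V) ∧
        T.card = k + 1 then y.1 (q, ⟨T, h⟩) else 0)
      split_ifs with h
      · have h1 := key q (Sum.inl (⟨T, h⟩, v))
        rw [row_inl r ⟨T, h⟩ v hv (fun j h => y.1 (q * π h, j))] at h1
        simp only [map_one, mul_one] at h1
        have h2 : ∀ a b : ZMod 2, a + b = 0 → b = a := by decide
        exact h2 _ _ h1
      · rfl
    · intro q τ
      have h1 := key q (Sum.inr τ)
      rw [row_inr r τ (fun j h => y.1 (q * π h, j))] at h1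
      refine Eq.trans ?_ h1
      change ∑ v ∈ Finset.univ \ τ, (if h : Γ.IsClique ((insert v τ : Finset V) : Set V) ∧
        (insert v τ).card = k + 1 then y.1 (q, ⟨insert v τ, h⟩) else 0) = _
      refine Finset.sum_congr rfl fun v _ => ?_
      split_ifs with h
      · have h3 : ∀ n : ℕ, ((-1 : ZMod 2)) ^ n = 1 := by
          intro n
          have : (-1 : ZMod 2) = 1 := by decide
          rw [this, one_pow]
        simp only [h3, map_one, mul_one, one_mul]
      · rfl⟩
  map_add' y z := by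
    apply Subtype.ext
    funext q T
    change _ = (if h : Γ.IsClique (T : Set V) ∧ T.card = k + 1 then y.1 (q, ⟨T, h⟩) else 0) +
      (if h : Γ.IsClique (T : Set V) ∧ T.card = k + 1 then z.1 (q, ⟨T, h⟩) else 0)
    change (if h : Γ.IsClique (T : Set V) ∧ T.card = k + 1 then
      y.1 (q, ⟨T, h⟩) + z.1 (q, ⟨T, h⟩) else 0) = _
    split_ifs with h
    · rfl
    · simp
  map_smul' a y := by
    apply Subtype.ext
    funext q T
    change (if h : Γ.IsClique (T : Set V) ∧ T.card = k + 1 then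
      a * y.1 (q, ⟨T, h⟩) else 0) =
      a * (if h : Γ.IsClique (T : Set V) ∧ T.card = k + 1 then y.1 (q, ⟨T, h⟩) else 0)
    split_ifs with h
    · rfl
    · simp

theorem toZQ_inj {Q : Type} [Group Q] (π : Racg Γ →* Q) :
    Function.Injective (toZQ (k := k) r π) := by
  intro y z h
  apply Subtype.ext
  funext ⟨q, T⟩
  have h1 := congrFun (congrFun (congrArg Subtype.val h) q) T.1
  change (if h : Γ.IsClique (T.1 : Set V) ∧ T.1.card = k + 1 then y.1 (q, ⟨T.1, h⟩) else 0) =
    (if h : Γ.IsClique (T.1 : Set V) ∧ T.1.card = k + 1 then z.1 (q, ⟨T.1, h⟩) else 0) at h1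
  rw [dif_pos T.2, dif_pos T.2] at h1
  exact h1

/-- Finite quotients with small kernels. -/
theorem small (h2 : NakStmt) (h3 : RepStmt) (h4 : NilStmt)
    (c : V → Fin (k + 1)) (hc : ∀ v w, Γ.Adj v w → c v ≠ c w) (hT : TwInj Γ Finset.univ k)
    (F : Finset (Racg Γ)) (hF : 1 ∉ F) (ε : ℝ) (hε : 0 < ε) :
    ∃ (Q : Type) (_ : Group Q) (_ : Fintype Q) (π : Racg Γ →* Q), (∀ g ∈ F, π g ≠ 1) ∧
      (Module.finrank (ZMod 2) (kerQ 2 (mat Γ k r) π) : ℝ) ≤ ε * Fintype.card Q := by
  obtain ⟨M, iM1, iM2, iM3, ρ, hρ1, hρ2, hρ3⟩ := h3 V Γ k c hc hT ε hε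
  obtain ⟨X, iX1, iX2, iX3, ρ', hρ'1, hρ'2⟩ := h4 V Γ F hF
  have : Finite M := Module.finite_of_finite (ZMod 2)
  have : Finite X := Module.finite_of_finite (ZMod 2)
  have : Finite (M ≃ₗ[ZMod 2] M) := Finite.of_injective (fun f => (f : M → M)) DFunLike.coe_injective
  have : Finite (X ≃ₗ[ZMod 2] X) := Finite.of_injective (fun f => (f : X → X)) DFunLike.coe_injective
  have : Finite (ρ'.prod ρ).range := inferInstance
  let iQ : Fintype (ρ'.prod ρ).range := Fintype.ofFinite _
  have hp : IsPGroup 2 (ρ'.prod ρ).range := by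
    rintro ⟨_, g, rfl⟩
    obtain ⟨n1, e1⟩ := hρ'1 ⟨ρ' g, g, rfl⟩
    obtain ⟨n2, e2⟩ := hρ1 ⟨ρ g, g, rfl⟩
    have e1' : (ρ' g) ^ 2 ^ n1 = 1 := congrArg Subtype.val e1
    have e2' : (ρ g) ^ 2 ^ n2 = 1 := congrArg Subtype.val e2
    refine ⟨n1 + n2, ?_⟩
    apply Subtype.ext
    change ((ρ' g, ρ g) : (X ≃ₗ[ZMod 2] X) × (M ≃ₗ[ZMod 2] M)) ^ 2 ^ (n1 + n2) = 1
    rw [Prod.pow_mk]
    rw [Prod.mk_eq_one]
    constructor
    · rw [pow_add, pow_mul, e1', one_pow]
    · rw [pow_add, mul_comm, pow_mul, e2', one_pow]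
  have hgen : ∀ v : V, gen Γ v * gen Γ v = 1 := fun v =>
    (racgMatrix Γ).toCoxeterSystem.simple_mul_simple_self v
  have hN := h2 V Γ k (ρ'.prod ρ).range M
    ((MonoidHom.snd _ _).comp (ρ'.prod ρ).range.subtype)
    (fun v => (ρ'.prod ρ).rangeRestrict (gen Γ v)) hp
    (fun v => by rw [← map_mul, hgen, map_one])
  refine ⟨(ρ'.prod ρ).range, inferInstance, iQ, (ρ'.prod ρ).rangeRestrict, ?_, ?_⟩
  · intro g hg h
    apply hρ'2 g hg
    have h5 := congrArg Subtype.val h
    exact congrArg Prod.fst h5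
  · have hN2 : (Module.finrank (ZMod 2)
        (ZQ Γ k (fun v => (ρ'.prod ρ).rangeRestrict (gen Γ v))) : ℝ) *
        Module.finrank (ZMod 2) M ≤ Fintype.card (ρ'.prod ρ).range *
          Module.finrank (ZMod 2) (ZM Γ k fun v => (ρ (gen Γ v)).toLinearMap) := by
      exact_mod_cast hN
    have hM : (0 : ℝ) < Module.finrank (ZMod 2) M := by exact_mod_cast hρ2
    have h6 : (Module.finrank (ZMod 2)
        (ZQ Γ k (fun v => (ρ'.prod ρ).rangeRestrict (gen Γ v))) : ℝ) ≤
        ε * Fintype.card (ρ'.prod ρ).range := by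
      by_contra hcon
      push Not at hcon
      have h7 : ε * Fintype.card (ρ'.prod ρ).range * Module.finrank (ZMod 2) M <
        (Module.finrank (ZMod 2)
        (ZQ Γ k (fun v => (ρ'.prod ρ).rangeRestrict (gen Γ v))) : ℝ) *
        Module.finrank (ZMod 2) M := mul_lt_mul_of_pos_right hcon hM
      have h8 : (Fintype.card (ρ'.prod ρ).range : ℝ) *
          Module.finrank (ZMod 2) (ZM Γ k fun v => (ρ (gen Γ v)).toLinearMap) ≤
          (Fintype.card (ρ'.prod ρ).range : ℝ) * (ε * Module.finrank (ZMod 2) M) :=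
        mul_le_mul_of_nonneg_left hρ3 (Nat.cast_nonneg _)
      nlinarith
    refine le_trans ?_ h6
    exact_mod_cast LinearMap.finrank_le_finrank_of_injective
      (toZQ_inj (k := k) r (ρ'.prod ρ).rangeRestrict)

theorem top_aux (h1 : LckStmt) (h2 : NakStmt) (h3 : RepStmt) (h4 : NilStmt)
    (c : V → Fin (k + 1)) (hc : ∀ v w, Γ.Adj v w → c v ≠ c w) (hT : TwInj Γ Finset.univ k) :
    HomologyVanishes Γ (k + 1) := by
  intro r hr x hx hb δ hδ
  have h5 := h1 2 (Racg Γ) (Jt Γ k) ((Jt Γ k × V) ⊕ Finset V) (mat Γ k r)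
    (fun F hF ε hε => small r h2 h3 h4 c hc hT F hF ε hε)
    (cmp (Function.Embedding.subtype _) x) (fun g K => cyc_eq r hx hb g K)
  have h6 : x = 0 := by
    apply Hil.ext'
    rintro ⟨g, T⟩
    by_cases h : Γ.IsClique (T : Set V) ∧ T.card = k + 1
    · have h7 := congrArg (fun y : Hil (Racg Γ × Jt Γ k) => y (g, ⟨T, h⟩)) h5
      simp only [cmp_apply] at h7
      exact h7
    · by_contra h7
      exact h (hx.support g T h7)
  subst h6
  refine ⟨0, 0, ⟨?_, ?_⟩, ?_, ?_⟩
  · intro g T h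
    exact absurd rfl h
  · intro g T t _
    change (0 : ℂ) = -0
    simp
  · intro g T
    change (0 : ℂ) = _
    symm
    apply Finset.sum_eq_zero
    intro v _
    change _ * (0 : ℂ) = 0
    simp
  · simpa using hδ

end top

theorem top (h1 : LckStmt) (h2 : NakStmt) (h3 : RepStmt) (h4 : NilStmt) : TopStmt := by
  intro V inst _ Γ k c hc hT
  obtain rfl : inst = fun a b => Classical.propDecidable (a = b) := Subsingleton.elim _ _
  exact top_aux h1 h2 h3 h4 c hc hT

end

end Pool.Agent.Sph.H26
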